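import Pool.Agent.MPa67235.Counterexample

/-!
# MP_a67235_nt, Q1: negative answer

There is a dominant rational map `f : ℙ³ ⇢ ℙ³` (induced, on the rational threefold `E³ / μ₆`,
`E : y² = x³ - 2`, by twice a unipotent matrix of size 3) and a point `P ∈ ℙ³(ℚ)` with Zariski
dense orbit such that `h(f^n(P)) ≍ 4^n n^4`. Hence no law `δ_f^n n^ℓ (log n)^k` with integers
`k` and `0 ≤ ℓ ≤ N = 3` holds.
-/

namespace Pool.Agent.Results.MP_a67235_nt.AnswerQ1

open Pool.Agent.MPa67235

/-- The answer to Q1 is negative. -/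
theorem result : ¬ Question1 := not_question1

end Pool.Agent.Results.MP_a67235_nt.AnswerQ1
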