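import Pool.Agent.MPa67235.Counterexample

/-!
# MP_a67235_nt, Q2: negative answer

There is a dominant rational map `f : ℙ³ ⇢ ℙ³` with dynamical degree `δ_f ≥ 4 > 1` and a point
`P ∈ ℙ³(ℚ)` with Zariski dense orbit such that `h(f^n(P)) ≍ 4^n n^4`. Hence
`h(f^n(P)) ≍ δ_f^n n^ℓ` fails for every integer `0 ≤ ℓ ≤ N = 3`.
-/

namespace Pool.Agent.Results.MP_a67235_nt.AnswerQ2

open Pool.Agent.MPa67235

/-- The answer to Q2 is negative. -/
theorem result : ¬ Question2 := not_question2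

end Pool.Agent.Results.MP_a67235_nt.AnswerQ2
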